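import Pool.Agent.Lib.MP_af3a4a_an.P1.CHK.DATA.N62x63.K0
import Pool.Agent.Lib.MP_af3a4a_an.P1.CHK.DATA.N62x63.K1
import Pool.Agent.Lib.MP_af3a4a_an.P1.CHK.DATA.N62x63.K2
import Pool.Agent.Lib.MP_af3a4a_an.P1.CHK.DATA.N62x63.K3
import Pool.Agent.Lib.MP_af3a4a_an.P1.CHK.DATA.N62x63.K4
import Pool.Agent.Lib.MP_af3a4a_an.P1.CHK.DATA.N62x63.K5

/-! glue for 62 <= N <= 63 (generated) -/

set_option autoImplicit false
set_option maxRecDepth 100000

namespace Pool.Agent.Lib.MP_af3a4a_an.P1.CHK.DATA.N62x63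

open BOX

theorem g0 : ChunkP 62 63 0 1024 0 101 0 672 := ChunkP.r k0 k1
theorem g1 : ChunkP 62 63 1024 1536 0 101 0 672 := ChunkP.g k2 k3
theorem g2 : ChunkP 62 63 1024 2048 0 101 0 672 := ChunkP.r g1 k4
theorem g3 : ChunkP 62 63 0 2048 0 101 0 672 := ChunkP.r g0 g2
theorem g4 : ChunkP 62 63 0 4096 0 101 0 672 := ChunkP.r g3 k5
theorem g5 : ChunkP 62 63 1536 2048 80 96 672 768 := ChunkP.r k10 k11
theorem g6 : ChunkP 62 63 1536 2048 64 96 672 768 := ChunkP.g k9 g5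
theorem g7 : ChunkP 62 63 1536 2048 64 101 672 768 := ChunkP.g g6 k12
theorem g8 : ChunkP 62 63 1536 2048 0 101 672 768 := ChunkP.g k8 g7
theorem g9 : ChunkP 62 63 1024 2048 0 101 672 768 := ChunkP.r k7 g8
theorem g10 : ChunkP 62 63 0 2048 0 101 672 768 := ChunkP.r k6 g9
theorem g11 : ChunkP 62 63 0 4096 0 101 672 768 := ChunkP.r g10 k13
theorem g12 : ChunkP 62 63 0 512 64 101 768 2484 := ChunkP.g k15 k16
theorem g13 : ChunkP 62 63 0 512 0 101 768 2484 := ChunkP.g k14 g12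
theorem g14 : ChunkP 62 63 512 768 80 96 1248 2484 := ChunkP.g k23 k24
theorem g15 : ChunkP 62 63 512 768 80 96 1200 2484 := ChunkP.R k22 g14
theorem g16 : ChunkP 62 63 512 768 80 96 1152 2484 := ChunkP.R k21 g15
theorem g17 : ChunkP 62 63 512 768 80 96 1008 2484 := ChunkP.R k20 g16
theorem g18 : ChunkP 62 63 512 768 80 96 768 2484 := ChunkP.R k19 g17
theorem g19 : ChunkP 62 63 768 896 80 88 1728 2484 := ChunkP.g k33 k34
theorem g20 : ChunkP 62 63 768 896 80 88 1680 2484 := ChunkP.R k32 g19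
theorem g21 : ChunkP 62 63 768 896 80 88 1632 2484 := ChunkP.R k31 g20
theorem g22 : ChunkP 62 63 768 896 80 88 1488 2484 := ChunkP.R k30 g21
theorem g23 : ChunkP 62 63 768 896 80 88 1248 2484 := ChunkP.R k29 g22
theorem g24 : ChunkP 62 63 896 1024 80 84 1728 2484 := ChunkP.r k39 k40
theorem g25 : ChunkP 62 63 896 1024 80 88 1728 2484 := ChunkP.g g24 k41
theorem g26 : ChunkP 62 63 896 1024 80 88 1680 2484 := ChunkP.R k38 g25
theorem g27 : ChunkP 62 63 896 1024 80 88 1632 2484 := ChunkP.R k37 g26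
theorem g28 : ChunkP 62 63 896 1024 80 88 1488 2484 := ChunkP.R k36 g27
theorem g29 : ChunkP 62 63 896 1024 80 88 1248 2484 := ChunkP.R k35 g28
theorem g30 : ChunkP 62 63 768 1024 80 88 1248 2484 := ChunkP.r g23 g29
theorem g31 : ChunkP 62 63 768 1024 80 88 1200 2484 := ChunkP.R k28 g30
theorem g32 : ChunkP 62 63 768 1024 80 88 1152 2484 := ChunkP.R k27 g31
theorem g33 : ChunkP 62 63 768 1024 80 88 1008 2484 := ChunkP.R k26 g32
theorem g34 : ChunkP 62 63 768 1024 80 88 768 2484 := ChunkP.R k25 g33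
theorem g35 : ChunkP 62 63 768 1024 80 96 768 2484 := ChunkP.g g34 k42
theorem g36 : ChunkP 62 63 512 1024 80 96 768 2484 := ChunkP.r g18 g35
theorem g37 : ChunkP 62 63 512 1024 64 96 768 2484 := ChunkP.g k18 g36
theorem g38 : ChunkP 62 63 512 1024 64 101 768 2484 := ChunkP.g g37 k43
theorem g39 : ChunkP 62 63 512 1024 0 101 768 2484 := ChunkP.g k17 g38
theorem g40 : ChunkP 62 63 0 1024 0 101 768 2484 := ChunkP.r g13 g39
theorem g41 : ChunkP 62 63 1024 1536 64 80 768 2484 := ChunkP.r k45 k46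
theorem g42 : ChunkP 62 63 1024 1280 80 88 1152 2484 := ChunkP.R k50 k51
theorem g43 : ChunkP 62 63 1024 1280 80 88 1104 2484 := ChunkP.R k49 g42
theorem g44 : ChunkP 62 63 1024 1280 80 88 1008 2484 := ChunkP.R k48 g43
theorem g45 : ChunkP 62 63 1024 1280 80 88 768 2484 := ChunkP.R k47 g44
theorem g46 : ChunkP 62 63 1024 1280 80 96 768 2484 := ChunkP.g g45 k52
theorem g47 : ChunkP 62 63 1024 1536 80 96 768 2484 := ChunkP.r g46 k53
theorem g48 : ChunkP 62 63 1024 1536 64 96 768 2484 := ChunkP.g g41 g47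
theorem g49 : ChunkP 62 63 1024 1536 64 101 768 2484 := ChunkP.g g48 k54
theorem g50 : ChunkP 62 63 1024 1536 0 101 768 2484 := ChunkP.g k44 g49
theorem g51 : ChunkP 62 63 1536 2048 64 96 768 2484 := ChunkP.g k56 k57
theorem g52 : ChunkP 62 63 1536 2048 64 101 768 2484 := ChunkP.g g51 k58
theorem g53 : ChunkP 62 63 1536 2048 0 101 768 2484 := ChunkP.g k55 g52
theorem g54 : ChunkP 62 63 1024 2048 0 101 768 2484 := ChunkP.r g50 g53
theorem g55 : ChunkP 62 63 0 2048 0 101 768 2484 := ChunkP.r g40 g54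
theorem g56 : ChunkP 62 63 2048 4096 0 101 768 2484 := ChunkP.r k59 k60
theorem g57 : ChunkP 62 63 0 4096 0 101 768 2484 := ChunkP.r g55 g56
theorem g58 : ChunkP 62 63 0 4096 0 101 0 768 := ChunkP.R g4 g11
theorem g59 : ChunkP 62 63 0 4096 0 101 0 2484 := ChunkP.R g58 g57

/-- the whole box -/
theorem allBox : ChunkP 62 63 0 4096 0 101 0 2484 := g59

theorem full {N : ℕ} (hNa : 62 ≤ N) (hNb : N ≤ 63) {z w : Fin N → ℂ} {R : ℝ} {σ : Fin N → ℂ}
    (hC : Pool.Agent.Lib.MP_af3a4a_an.P1.H80.Cfg2 N z w R σ) : ((2484 : ℕ) : ℝ) / 1024 < R := ChunkP.full allBox hNa hNb hC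

end Pool.Agent.Lib.MP_af3a4a_an.P1.CHK.DATA.N62x63
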